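import Pool.Agent.Work.MP_5dff62_co.Final
import Pool.Agent.Work.MP_5dff62_co.Bridge

set_option autoImplicit false

/-!
# MP_5dff62_co: the conjecture holds for all sufficiently large orders

For every sufficiently large `n` with `n ≡ 4 (mod 6)` there is a Steiner quadruple system `SQS(n)`
all of whose derived Steiner triple systems are resolvable.
-/

namespace Pool.Agent.Results.MP_5dff62_co.LargeOrders

open Finset Pool.Agent.MP_5dff62_co

theorem result : ∃ n0 : ℕ, ∀ n : ℕ, n0 ≤ n → n % 6 = 4 →
    ∃ 𝓑 : Finset (Finset (Fin n)), IsSQS 𝓑 ∧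
      ∀ x : Fin n, IsResolvable (univ.erase x) (derived 𝓑 x) := by
  obtain ⟨n0, h0⟩ := Pool.Agent.RDS.large
  exact ⟨n0 + 4, fun n hn hn6 => bridge (by omega) (by omega) (h0 n (by omega) hn6)⟩

end Pool.Agent.Results.MP_5dff62_co.LargeOrders
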